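import Pool.Agent.T9h70.Corr.Mat

/-!
# Iterated correlation map: orbits with a nontrivial omega-limit set

For every positive multiple `n = 343 m` of `343` there are uncountably many correlation matrices
`A` of size `n` without constant row whose orbit under the correlation map has a nontrivial
`ω`-limit set (in particular the orbit does not converge).

Idea.  Take `209 m` rows equal to the unit vector `(0,0,1)`, `35 m + 35 m` rows
`(±√(1-c²), 0, c)` and `32 m + 32 m` rows `(0, ±√(1-d²), -d)`; the Gram matrix `A(c,d)` of these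
`n` vectors is sent by the correlation map to `A(F(c,d))` for an explicit planar map `F`.  The map
`F` has an explicit convex trapping polygon with 100 sides, its only fixed point with `d > 0` in
the polygon is `(5/17, 1/34)`, where the derivative has non-real eigenvalues with modulus larger
than one, and the side `d = 0` is repelling near its fixed point.
-/

set_option autoImplicit false

namespace Pool.Agent.Results.MP_421f91_an.NontrivialOmegaLimit

open Filter Topology Pool.Agent.T9h70.Corr

theorem result : ∀ m : ℕ, 1 ≤ m →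
    ¬ {A : Matrix (Fin (343 * m)) (Fin (343 * m)) ℝ |
        A ∈ Cnd (343 * m) ∧ (∀ k : ℕ, corrMap^[k] A ∈ Cnd (343 * m)) ∧
        (¬ ∃ L, Tendsto (fun k : ℕ => corrMap^[k] A) atTop (𝓝 L)) ∧
        {L | MapClusterPt L atTop (fun k : ℕ => corrMap^[k] A)}.Nontrivial}.Countable := by
  intro m hm hcount
  have hm0 : 0 < m := hm
  -- the segment `d = 1/50`, `1/4 ≤ c ≤ 3/10`
  set g : ℝ → Matrix (Fin (343 * m)) (Fin (343 * m)) ℝ :=
    fun s => Am m (1 / 4 + s / 20, 1 / 50) with hg
  have hsub : g '' Set.Icc 0 1 ⊆ {A : Matrix (Fin (343 * m)) (Fin (343 * m)) ℝ |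
        A ∈ Cnd (343 * m) ∧ (∀ k : ℕ, corrMap^[k] A ∈ Cnd (343 * m)) ∧
        (¬ ∃ L, Tendsto (fun k : ℕ => corrMap^[k] A) atTop (𝓝 L)) ∧
        {L | MapClusterPt L atTop (fun k : ℕ => corrMap^[k] A)}.Nontrivial} := by
    rintro _ ⟨s, hs, rfl⟩
    have hK := seg_mem hs.1 hs.2
    have hne : ((1 / 4 + s / 20, 1 / 50) : ℝ × ℝ) ≠ p0 := by
      intro h
      have := congrArg Prod.snd h
      simp only [p0] at this
      norm_num at this
    have hd : 0 < ((1 / 4 + s / 20, 1 / 50) : ℝ × ℝ).2 := by norm_num
    refine ⟨Am_mem hm0 hK, fun k => ?_, not_conv hm0 hK hd hne, nontrivial_omega hm0 hK hd hne⟩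
    simp only [hg]
    rw [iter_Am hm0 hK]
    exact Am_mem hm0 (iter_K hK k)
  have hinj : Set.InjOn g (Set.Icc 0 1) := by
    intro s _ t _ hst
    have := congrFun (congrFun hst (i0 hm0)) (i1 hm0)
    simp only [hg] at this
    rw [Am_01, Am_01] at this
    simp only at this
    linarith
  have h1 : (g '' Set.Icc 0 1).Countable := hcount.mono hsub
  have h2 : (Set.Icc (0 : ℝ) 1).Countable :=
    Set.countable_of_injective_of_countable_image hinj h1
  have h3 := Cardinal.mk_Icc_real (show (0 : ℝ) < 1 by norm_num)
  have h4 := Cardinal.le_aleph0_iff_set_countable.2 h2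
  rw [h3] at h4
  exact absurd h4 (not_le.2 Cardinal.aleph0_lt_continuum)

end Pool.Agent.Results.MP_421f91_an.NontrivialOmegaLimit
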